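import Pool.Agent.Q66.RX.Stm

/-! Job CH of project RX: the dependent choice. -/

set_option autoImplicit false

namespace Pool.Agent.Q247.RX

open Pool.Agent.Q66.RX Topology Filter Set

theorem cont_rr : Continuous rr := by
  unfold rr
  exact Complex.continuous_re.comp continuous_subtype_val

theorem rr_one : rr 1 = 1 := by
  unfold rr
  simp

theorem pos_mem : {z : Circle | 0 < rr z} ∈ 𝓝 (1 : Circle) :=
  (isOpen_lt continuous_const cont_rr).mem_nhds (by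
    change 0 < rr 1
    rw [rr_one]
    exact one_pos)

theorem step (hL : S_LC) {I X G : Type} [CommGroup X] [TopologicalSpace X] [IsTopologicalGroup X]
    [LocallyCompactSpace X] [CommGroup G] [TopologicalSpace G] [IsTopologicalGroup G]
    (F : Fam I X G) (L : Set (PontryaginDual G)) (hR : R2 X)
    (hN : ∀ W ∈ 𝓝 (1 : G), ∃ χ ∈ L, ∃ g ∈ W, rr (χ g) < 0)
    (V : {V : Set X // V ∈ 𝓝 (1 : X)}) :
    ∃ (V' : {V : Set X // V ∈ 𝓝 (1 : X)}) (χ : PontryaginDual G) (g : G),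
      (∀ a ∈ V'.1, ∀ b ∈ V'.1, a * b ∈ V.1) ∧ χ ∈ L ∧ (∀ i, F.c g i ∈ V.1) ∧ rr (χ g) < 0 ∧
      ∀ z : G, (∀ β : PontryaginDual X, (∀ v ∈ V'.1, 0 < rr (β v)) →
        ∀ i, 0 ≤ rr (β (F.c z i))) → 0 ≤ rr (χ z) := by
  obtain ⟨V, hV⟩ := V
  have hW : {g : G | ∀ i, F.c g i ∈ V} ∈ 𝓝 (1 : G) := (F.nhd _).2 ⟨V, hV, fun g hg => hg⟩
  obtain ⟨χ, hχ, g, hg, hneg⟩ := hN _ hW
  have hχc : Continuous fun z : G => χ z := χ.continuous_toFun
  have h1 : {z : G | 0 ≤ rr (χ z)} ∈ 𝓝 (1 : G) := by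
    have h2 : (fun z : G => χ z) ⁻¹' {z : Circle | 0 < rr z} ∈ 𝓝 (1 : G) := by
      apply hχc.continuousAt.preimage_mem_nhds
      have h3 : χ (1 : G) = 1 := map_one χ
      rw [h3]
      exact pos_mem
    refine mem_of_superset h2 fun z hz => ?_
    have hz' : 0 < rr (χ z) := hz
    exact hz'.le
  obtain ⟨U, hU, hUz⟩ := (F.nhd _).1 h1
  obtain ⟨Q, hQ, hQU⟩ := hR U hU
  obtain ⟨M, hM, hMQ⟩ := hL X Q hQ _ pos_mem
  obtain ⟨V1, hV1, hV1V⟩ : ∃ V1 ∈ 𝓝 (1 : X), ∀ v ∈ V1, ∀ w ∈ V1, v * w ∈ V := by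
    obtain ⟨A, hA, h⟩ := exists_nhds_one_split hV
    exact ⟨A, hA, h⟩
  refine ⟨⟨V1 ∩ M, inter_mem hV1 hM⟩, χ, g, fun a ha b hb => hV1V a ha.1 b hb.1, hχ, hg, hneg,
    fun z hz => ?_⟩
  apply hUz z
  intro i
  apply hQU
  intro ψ hψ
  exact hz ψ (fun v hv => hMQ ψ hψ v hv.2) i

/-- **CH.** -/
theorem t_CH (hL : S_LC) : S_CH := by
  intro I X G _ _ _ _ _ _ _ F L hR hN
  obtain ⟨K, hK, hK1⟩ := exists_compact_mem_nhds (1 : X)
  choose N χ g h1 h2 h3 h4 h5 using step hL F L hR hN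
  let V : ℕ → {V : Set X // V ∈ 𝓝 (1 : X)} := fun n => Nat.rec ⟨K, hK1⟩ (fun _ V => N V) n
  have hV : ∀ n, V (n + 1) = N (V n) := fun n => rfl
  refine ⟨fun n => (V n).1, K, fun n => χ (V n), fun n => g (V n), fun n => (V n).2, ?_, hK,
    Subset.rfl, fun n => h2 _, fun n i => h3 _ i, fun n => h4 _, ?_⟩
  · intro n a ha b hb
    exact h1 (V n) a ha b hb
  · intro n z hz
    exact h5 (V n) z hz

end Pool.Agent.Q247.RX
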